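import Pool.Agent.H.MP_b09029_pr.A

open MeasureTheory ProbabilityTheory SimpleGraph Function Classical

namespace Pool.Agent.Results.MP_b09029_pr.Never

/-- the nearest-neighbour graph on the box of side `4n` in the plane lattice -/
def G (n : ℕ) : SimpleGraph {x : ℤ × ℤ // |x.1| ≤ 2 * n ∧ |x.2| ≤ 2 * n} where
  Adj x y := |x.1.1 - y.1.1| + |x.1.2 - y.1.2| = 1
  symm := ⟨fun x y h => by rwa [abs_sub_comm, abs_sub_comm y.1.2]⟩
  loopless := ⟨fun x h => by simp at h⟩

/-- passage time from `0` to `(n, 0)`; an edge has weight `1` if `ω e` is true, `4` otherwise -/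
noncomputable def f (n : ℕ) (ω : (G n).edgeSet → Bool) : ℝ :=
  ⨅ γ : (G n).Path ⟨(0, 0), by simp⟩ ⟨(n, 0), by simp; omega⟩,
    (γ.1.darts.map fun d => if ω ⟨d.edge, d.edge_mem⟩ then (1 : ℝ) else 4).sum

theorem result (p : unitInterval) (p0 : 0 < p) (p1 : p < 1) (n : ℕ) (hn : 1 ≤ n) :
    ∃ j : (G n).edgeSet,
      0 < Measure.infinitePi (fun _ => bernoulliMeasure true false p)
        {ω | f n (update ω j false) - f n (update ω j true) ≠ 0} ∧
      {ω | f n (update ω j false) - f n (update ω j true) = 4 - 1} = ∅ :=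
  H.MP_b09029_pr.main p p0 p1 n hn

end Pool.Agent.Results.MP_b09029_pr.Never
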